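import Pool.Agent.Lib_helper29.G4.PM4
import Pool.Agent.Lib_helper44.G5.Defs
import Pool.Agent.Lib_helper44.G5.NUMH
import Pool.Agent.Lib_helper93.G4.ORTH

/-!
# MM4: fourth moment of the sum over prime powers
-/

namespace Pool.Agent.G5

open Pool.Agent.G4

open Complex MeasureTheory Filter Topology

/-- phase -/
noncomputable def mm4e (r : ℝ) (t : ℝ) : ℂ := cexp (-((r * t : ℝ) : ℂ) * I)

theorem mm4_e_norm (r t : ℝ) : ‖mm4e r t‖ = 1 := by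
  rw [mm4e, ← Complex.ofReal_neg]
  exact Complex.norm_exp_ofReal_mul_I _

theorem mm4_e_add (r s t : ℝ) : mm4e (r + s) t = mm4e r t * mm4e s t := by
  rw [mm4e, mm4e, mm4e, ← Complex.exp_add]
  congr 1
  push_cast
  ring

/-- local factor -/
noncomputable def mm4f (c : ℕ → ℕ → ℂ) (K : ℕ) (x : Ix) (t : ℝ) (p : ℕ) : ℂ :=
  ∑ k ∈ Finset.Icc 1 K, c p k * ev x (p ^ k) * mm4e (k * Real.log p) t

theorem mm4_ev_pow (x : Ix) (p k : ℕ) : ev x (p ^ k) = ev x p ^ k := by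
  rw [ev, ev, Nat.cast_pow, map_pow]

theorem mm4_ev_mul (x : Ix) (a b : ℕ) : ev x (a * b) = ev x a * ev x b := by
  rw [ev, ev, ev, Nat.cast_mul, map_mul]

theorem mm4_FF (c : ℕ → ℕ → ℂ) (P K : ℕ) (x : Ix) (t : ℝ) :
    FF c P K x t = ∑ p ∈ Nat.primesBelow (P + 1), mm4f c K x t p := by
  unfold FF mm4f
  refine Finset.sum_congr rfl fun p _ => Finset.sum_congr rfl fun k _ => ?_
  rw [mm4_ev_pow, mm4e]

theorem mm4_FF_cont (c : ℕ → ℕ → ℂ) (P K : ℕ) (x : Ix) : Continuous (FF c P K x) := by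
  unfold FF
  fun_prop

/-- the coefficients of the square of a local factor -/
noncomputable def mm4b (c : ℕ → ℕ → ℂ) (K p l : ℕ) : ℂ :=
  ∑ q ∈ (Finset.Icc 1 K ×ˢ Finset.Icc 1 K).filter (fun q => q.1 + q.2 = l), c p q.1 * c p q.2

theorem mm4_sq (c : ℕ → ℕ → ℂ) (K : ℕ) (x : Ix) (t : ℝ) (p : ℕ) :
    mm4f c K x t p ^ 2 = ∑ l ∈ Finset.Icc 2 (2 * K), mm4b c K p l *
      mm4e (l * Real.log p) t * ev x (p ^ l) := by
  rw [sq, mm4f, Finset.sum_mul_sum, ← Finset.sum_product',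
    ← Finset.sum_fiberwise_of_maps_to (g := fun q : ℕ × ℕ => q.1 + q.2)
      (t := Finset.Icc 2 (2 * K)) (by
        rintro ⟨a, b⟩ h
        simp only [Finset.mem_product, Finset.mem_Icc] at h ⊢
        omega)]
  refine Finset.sum_congr rfl fun l _ => ?_
  rw [mm4b, Finset.sum_mul, Finset.sum_mul]
  refine Finset.sum_congr rfl ?_
  rintro ⟨j, k⟩ h
  have h1 : j + k = l := (Finset.mem_filter.1 h).2
  subst h1
  have h2 : mm4e (((j + k : ℕ) : ℝ) * Real.log p) t =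
      mm4e (j * Real.log p) t * mm4e (k * Real.log p) t := by
    rw [← mm4_e_add]
    congr 1
    push_cast
    ring
  simp only
  rw [h2, pow_add, mm4_ev_mul]
  ring

theorem mm4_split (s : Finset ℕ) (f : ℕ → ℂ) : (∑ p ∈ s, f p) ^ 2 =
    (∑ p ∈ s, f p ^ 2) + ∑ q ∈ (s ×ˢ s).filter (fun q => q.1 < q.2), 2 * (f q.1 * f q.2) := by
  rw [pm_sq_sum]
  have h0 : (s ×ˢ s).filter (fun q => q.1 ≤ q.2) =
      s.diag ∪ (s ×ˢ s).filter (fun q => q.1 < q.2) := by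
    ext ⟨a, b⟩
    simp only [Finset.mem_filter, Finset.mem_product, Finset.mem_union, Finset.mem_diag]
    constructor
    · rintro ⟨⟨h1, h2⟩, h3⟩
      rcases h3.lt_or_eq with h4 | h4
      · exact Or.inr ⟨⟨h1, h2⟩, h4⟩
      · exact Or.inl ⟨h1, h4⟩
    · rintro (⟨h1, rfl⟩ | ⟨h1, h2⟩)
      · exact ⟨⟨h1, h1⟩, le_rfl⟩
      · exact ⟨h1, h2.le⟩
  have hd : Disjoint s.diag ((s ×ˢ s).filter (fun q => q.1 < q.2)) := by
    rw [Finset.disjoint_left]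
    rintro ⟨a, b⟩ h1 h2
    simp only [Finset.mem_filter, Finset.mem_diag] at h1 h2
    omega
  rw [h0, Finset.sum_union hd]
  congr 1
  · rw [Finset.sum_diag]
    refine Finset.sum_congr rfl fun p _ => ?_
    simp only [pmk, if_true]
    push_cast
    ring
  · refine Finset.sum_congr rfl fun q hq => ?_
    have h1 : ¬ q.1 = q.2 := (Finset.mem_filter.1 hq).2.ne
    simp only [pmk, if_neg h1]
    push_cast
    ring

theorem mm4_cross (c : ℕ → ℕ → ℂ) (K : ℕ) (x : Ix) (t : ℝ) (p q : ℕ) :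
    2 * (mm4f c K x t p * mm4f c K x t q) = ∑ r ∈ Finset.Icc 1 K ×ˢ Finset.Icc 1 K,
      (2 * (c p r.1 * c q r.2) * mm4e (r.1 * Real.log p + r.2 * Real.log q) t) *
        ev x (p ^ r.1 * q ^ r.2) := by
  rw [mm4f, mm4f, Finset.sum_mul_sum, ← Finset.sum_product', Finset.mul_sum]
  refine Finset.sum_congr rfl ?_
  rintro ⟨j, k⟩ _
  simp only
  rw [mm4_e_add, mm4_ev_mul]
  ring

/-- first index set -/
def mm4I (P K : ℕ) : Finset (ℕ × ℕ) := Nat.primesBelow (P + 1) ×ˢ Finset.Icc 2 (2 * K)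

/-- second index set -/
def mm4J (P K : ℕ) : Finset ((ℕ × ℕ) × (ℕ × ℕ)) :=
  ((Nat.primesBelow (P + 1) ×ˢ Nat.primesBelow (P + 1)).filter (fun q => q.1 < q.2)) ×ˢ
    (Finset.Icc 1 K ×ˢ Finset.Icc 1 K)

theorem mm4_FF_sq (c : ℕ → ℕ → ℂ) (P K : ℕ) (x : Ix) (t : ℝ) :
    FF c P K x t ^ 2 = (∑ i ∈ mm4I P K, (mm4b c K i.1 i.2 * mm4e (i.2 * Real.log i.1) t) *
      ev x (i.1 ^ i.2)) + ∑ i ∈ mm4J P K, (2 * (c i.1.1 i.2.1 * c i.1.2 i.2.2) *
        mm4e (i.2.1 * Real.log i.1.1 + i.2.2 * Real.log i.1.2) t) *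
          ev x (i.1.1 ^ i.2.1 * i.1.2 ^ i.2.2) := by
  rw [mm4_FF, mm4_split]
  congr 1
  · rw [mm4I, Finset.sum_product]
    exact Finset.sum_congr rfl fun p _ => mm4_sq c K x t p
  · rw [mm4J, Finset.sum_product]
    exact Finset.sum_congr rfl fun q _ => mm4_cross c K x t q.1 q.2

theorem mm4_inj1 {P K : ℕ} (i j : ↥(mm4I P K)) (h : i.1.1 ^ i.1.2 = j.1.1 ^ j.1.2) : i = j := by
  obtain ⟨⟨a, b⟩, hi⟩ := i
  obtain ⟨⟨c, d⟩, hj⟩ := j
  simp only [mm4I, Finset.mem_product, Finset.mem_Icc] at hi hj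
  simp only at h
  have ha := Nat.prime_of_mem_primesBelow hi.1
  have hc := Nat.prime_of_mem_primesBelow hj.1
  obtain ⟨b', rfl⟩ : ∃ b', b = b' + 1 := ⟨b - 1, by omega⟩
  obtain ⟨d', rfl⟩ : ∃ d', d = d' + 1 := ⟨d - 1, by omega⟩
  obtain ⟨h1, h2⟩ := Nat.Prime.pow_inj ha hc h
  subst h1
  subst h2
  rfl

theorem mm4_inj2 {P K : ℕ} (i j : ↥(mm4J P K))
    (h : i.1.1.1 ^ i.1.2.1 * i.1.1.2 ^ i.1.2.2 = j.1.1.1 ^ j.1.2.1 * j.1.1.2 ^ j.1.2.2) :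
    i = j := by
  obtain ⟨⟨⟨p, q⟩, ⟨a, b⟩⟩, hi⟩ := i
  obtain ⟨⟨⟨p', q'⟩, ⟨a', b'⟩⟩, hj⟩ := j
  simp only [mm4J, Finset.mem_product, Finset.mem_Icc, Finset.mem_filter] at hi hj
  simp only at h
  obtain ⟨⟨⟨hp, hq⟩, hpq⟩, ⟨ha1, ha2⟩, hb1, hb2⟩ := hi
  obtain ⟨⟨⟨hp', hq'⟩, hpq'⟩, ⟨ha1', ha2'⟩, hb1', hb2'⟩ := hj
  have Pp := Nat.prime_of_mem_primesBelow hp
  have Pq := Nat.prime_of_mem_primesBelow hq
  have Pp' := Nat.prime_of_mem_primesBelow hp'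
  have Pq' := Nat.prime_of_mem_primesBelow hq'
  have key : ∀ {r : ℕ}, r.Prime → (r ∣ p ^ a * q ^ b ↔ r = p ∨ r = q) := by
    intro r hr
    rw [hr.dvd_mul]
    constructor
    · rintro (h1 | h1)
      · exact Or.inl ((Nat.prime_dvd_prime_iff_eq hr Pp).1 (hr.dvd_of_dvd_pow h1))
      · exact Or.inr ((Nat.prime_dvd_prime_iff_eq hr Pq).1 (hr.dvd_of_dvd_pow h1))
    · rintro (rfl | rfl)
      · exact Or.inl (dvd_pow_self _ (by omega))
      · exact Or.inr (dvd_pow_self _ (by omega))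
  have key' : ∀ {r : ℕ}, r.Prime → (r ∣ p' ^ a' * q' ^ b' ↔ r = p' ∨ r = q') := by
    intro r hr
    rw [hr.dvd_mul]
    constructor
    · rintro (h1 | h1)
      · exact Or.inl ((Nat.prime_dvd_prime_iff_eq hr Pp').1 (hr.dvd_of_dvd_pow h1))
      · exact Or.inr ((Nat.prime_dvd_prime_iff_eq hr Pq').1 (hr.dvd_of_dvd_pow h1))
    · rintro (rfl | rfl)
      · exact Or.inl (dvd_pow_self _ (by omega))
      · exact Or.inr (dvd_pow_self _ (by omega))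
  have e1 := (key' Pp).1 (h ▸ (key Pp).2 (Or.inl rfl))
  have e2 := (key' Pq).1 (h ▸ (key Pq).2 (Or.inr rfl))
  have h1 : p = p' := by
    rcases e1 with e1 | e1
    · exact e1
    · rcases e2 with e2 | e2
      · omega
      · omega
  have h2 : q = q' := by
    rcases e2 with e2 | e2
    · omega
    · exact e2
  subst h1
  subst h2
  have hne : p ≠ q := hpq.ne
  have h3 : a = a' := by
    have h4 : (p ^ a * q ^ b).factorization p = (p ^ a' * q ^ b').factorization p := by rw [h]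
    rw [Nat.factorization_mul (pow_ne_zero _ Pp.ne_zero) (pow_ne_zero _ Pq.ne_zero),
      Nat.factorization_mul (pow_ne_zero _ Pp.ne_zero) (pow_ne_zero _ Pq.ne_zero),
      Pp.factorization_pow, Pq.factorization_pow, Pp.factorization_pow, Pq.factorization_pow] at h4
    simpa [Finsupp.single_apply, hne.symm] using h4
  subst h3
  have h5 : b = b' := by
    have h6 := Nat.eq_of_mul_eq_mul_left (pow_pos Pp.pos a) h
    exact Nat.pow_right_injective Pq.two_le h6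
  subst h5
  rfl

theorem mm4_ev_one (x : Ix) : ev x 1 = 1 := by
  rw [ev, Nat.cast_one, map_one]

theorem mm4_num {c : ℕ → ℕ → ℂ} {v : ℕ → ℝ} {P K : ℕ} {C₀ : ℝ} (h : MB c v P K C₀) {p : ℕ}
    (hp : p.Prime) {j k : ℕ} (hj : 1 ≤ j) (hk : 1 ≤ k) :
    ‖c p j‖ * ‖c p k‖ ≤ v p * (1 / ((j : ℝ) * k)) := by
  have hj0 : (0 : ℝ) < j := by exact_mod_cast hj
  have hk0 : (0 : ℝ) < k := by exact_mod_cast hk
  have hv := h.w_nonneg p
  have h1 := h.c_le p hp j hj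
  have h2 := h.c_le p hp k hk
  rw [← pow_le_pow_iff_left₀ (by positivity) (by positivity) (two_ne_zero)]
  calc (‖c p j‖ * ‖c p k‖) ^ 2 = ‖c p j‖ ^ 2 * ‖c p k‖ ^ 2 := by ring
    _ ≤ (v p / (j : ℝ) ^ 2) * (v p / (k : ℝ) ^ 2) :=
        mul_le_mul h1 h2 (by positivity) (by positivity)
    _ = (v p * (1 / ((j : ℝ) * k))) ^ 2 := by
        field_simp

/-- MM4 -/
theorem mm4_pr (N : ℕ) {w : ℝ → ℝ} (hw : Continuous w) (hc : HasCompactSupport w)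
    (h0 : ∀ t, 0 ≤ w t) (C₀ : ℝ) : ∃ C : ℝ, 0 ≤ C ∧
    ∀ (c : ℕ → ℕ → ℂ) (v : ℕ → ℝ) (P K : ℕ), MB c v P K C₀ → ∃ Q₀ : ℕ, ∀ Q : ℕ, Q₀ ≤ Q →
      ∑ x ∈ pairs N Q, ∫ t : ℝ, w t * (FF c P K x t).re ^ 4 ≤ C * (1 + VF c P K) ^ 2 * Q ^ 2 := by
  obtain ⟨Cn, hCn0, hCn⟩ := conv_numeric_pr
  have hw0 : 0 ≤ ∫ t : ℝ, w t := integral_nonneg h0
  refine ⟨(2 * (Cn * C₀ ^ 2) + 8) * ∫ t : ℝ, w t, by positivity, fun c v P K hMB => ?_⟩
  set V := VF c P K with hV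
  have hV0 : 0 ≤ V := by
    rw [hV, VF]
    exact Finset.sum_nonneg fun _ _ => Finset.sum_nonneg fun _ _ => by positivity
  -- the two families
  set b1 : ↥(mm4I P K) → ℝ := fun i => ∑ q ∈ (Finset.Icc 1 K ×ˢ Finset.Icc 1 K).filter
    (fun q => q.1 + q.2 = i.1.2), ‖c i.1.1 q.1‖ * ‖c i.1.1 q.2‖ with hb1
  set b2 : ↥(mm4J P K) → ℝ := fun i => 2 * (‖c i.1.1.1 i.1.2.1‖ * ‖c i.1.1.2 i.1.2.2‖) with hb2
  have hb10 : ∀ i, 0 ≤ b1 i := fun i => by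
    rw [hb1]
    exact Finset.sum_nonneg fun _ _ => by positivity
  have hb20 : ∀ i, 0 ≤ b2 i := fun i => by rw [hb2]; positivity
  have hpos1 : ∀ i : ↥(mm4I P K), 0 < i.1.1 ^ i.1.2 := by
    intro i
    have hi := i.2
    simp only [mm4I, Finset.mem_product] at hi
    exact pow_pos (Nat.prime_of_mem_primesBelow hi.1).pos _
  have hpos2 : ∀ i : ↥(mm4J P K), 0 < i.1.1.1 ^ i.1.2.1 * i.1.1.2 ^ i.1.2.2 := by
    intro i
    have hi := i.2
    simp only [mm4J, Finset.mem_product, Finset.mem_filter] at hi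
    exact Nat.mul_pos (pow_pos (Nat.prime_of_mem_primesBelow hi.1.1.1).pos _)
      (pow_pos (Nat.prime_of_mem_primesBelow hi.1.1.2).pos _)
  obtain ⟨Q₁, hQ1⟩ := orth_pr (ι := ↥(mm4I P K)) N b1 hb10 (Summable.of_finite)
    (fun i => i.1.1 ^ i.1.2) (fun _ => 1) hpos1 (fun _ => one_pos)
    (fun i j h => mm4_inj1 i j (by simpa using h)) (ε := 1) one_pos
  obtain ⟨Q₂, hQ2⟩ := orth_pr (ι := ↥(mm4J P K)) N b2 hb20 (Summable.of_finite)
    (fun i => i.1.1.1 ^ i.1.2.1 * i.1.1.2 ^ i.1.2.2) (fun _ => 1) hpos2 (fun _ => one_pos)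
    (fun i j h => mm4_inj2 i j (by simpa using h)) (ε := 1) one_pos
  refine ⟨max Q₁ Q₂, fun Q hQ => ?_⟩
  have hbs1 : ∑' i, b1 i ^ 2 ≤ Cn * C₀ ^ 2 * V := by
    rw [tsum_fintype]
    have e1 : ∑ i : ↥(mm4I P K), b1 i ^ 2 = ∑ p ∈ Nat.primesBelow (P + 1),
        ∑ l ∈ Finset.Icc 2 (2 * K), (∑ q ∈ (Finset.Icc 1 K ×ˢ Finset.Icc 1 K).filter
          (fun q => q.1 + q.2 = l), ‖c p q.1‖ * ‖c p q.2‖) ^ 2 := by
      rw [← Finset.sum_product', ← mm4I, ← Finset.sum_coe_sort (mm4I P K)]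
    rw [e1, hV, VF, Finset.mul_sum]
    refine Finset.sum_le_sum fun p hp => ?_
    have hpp := Nat.prime_of_mem_primesBelow hp
    have hv0 := hMB.w_nonneg p
    have hv1 := hMB.w_le p hpp
    have hv2 := hMB.w_V p hpp
    calc ∑ l ∈ Finset.Icc 2 (2 * K), (∑ q ∈ (Finset.Icc 1 K ×ˢ Finset.Icc 1 K).filter
          (fun q => q.1 + q.2 = l), ‖c p q.1‖ * ‖c p q.2‖) ^ 2
        ≤ ∑ l ∈ Finset.Icc 2 (2 * K), (v p * ∑ q ∈ (Finset.Icc 1 K ×ˢ Finset.Icc 1 K).filter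
          (fun q => q.1 + q.2 = l), 1 / ((q.1 : ℝ) * q.2)) ^ 2 := by
          refine Finset.sum_le_sum fun l _ => ?_
          refine pow_le_pow_left₀ (Finset.sum_nonneg fun _ _ => by positivity) ?_ 2
          rw [Finset.mul_sum]
          refine Finset.sum_le_sum fun q hq => ?_
          simp only [Finset.mem_filter, Finset.mem_product, Finset.mem_Icc] at hq
          exact mm4_num hMB hpp hq.1.1.1 hq.1.2.1
      _ = v p ^ 2 * ∑ l ∈ Finset.Icc 2 (2 * K), (∑ q ∈ (Finset.Icc 1 K ×ˢ Finset.Icc 1 K).filter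
          (fun q => q.1 + q.2 = l), 1 / ((q.1 : ℝ) * q.2)) ^ 2 := by
          rw [Finset.mul_sum]
          refine Finset.sum_congr rfl fun l _ => ?_
          ring
      _ ≤ v p ^ 2 * Cn := mul_le_mul_of_nonneg_left (hCn K).1 (by positivity)
      _ ≤ (C₀ * (C₀ * ∑ k ∈ Finset.Icc 1 K, ‖c p k‖ ^ 2)) * Cn := by
          refine mul_le_mul_of_nonneg_right ?_ hCn0
          rw [sq]
          exact mul_le_mul hv1 hv2 hv0 (hv0.trans hv1)
      _ = Cn * C₀ ^ 2 * ∑ k ∈ Finset.Icc 1 K, ‖c p k‖ ^ 2 := by ring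
  have hbs2 : ∑' i, b2 i ^ 2 ≤ 4 * V ^ 2 := by
    rw [tsum_fintype]
    have e1 : ∑ i : ↥(mm4J P K), b2 i ^ 2 = ∑ q ∈ (Nat.primesBelow (P + 1) ×ˢ
        Nat.primesBelow (P + 1)).filter (fun q => q.1 < q.2),
        ∑ r ∈ Finset.Icc 1 K ×ˢ Finset.Icc 1 K, 4 * (‖c q.1 r.1‖ ^ 2 * ‖c q.2 r.2‖ ^ 2) := by
      rw [← Finset.sum_product', ← mm4J, ← Finset.sum_coe_sort (mm4J P K)]
      refine Finset.sum_congr rfl fun i _ => ?_
      rw [hb2]
      ring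
    rw [e1]
    calc ∑ q ∈ (Nat.primesBelow (P + 1) ×ˢ
        Nat.primesBelow (P + 1)).filter (fun q => q.1 < q.2),
        ∑ r ∈ Finset.Icc 1 K ×ˢ Finset.Icc 1 K, 4 * (‖c q.1 r.1‖ ^ 2 * ‖c q.2 r.2‖ ^ 2)
        ≤ ∑ q ∈ (Nat.primesBelow (P + 1) ×ˢ Nat.primesBelow (P + 1)),
        ∑ r ∈ Finset.Icc 1 K ×ˢ Finset.Icc 1 K, 4 * (‖c q.1 r.1‖ ^ 2 * ‖c q.2 r.2‖ ^ 2) :=
          Finset.sum_le_sum_of_subset_of_nonneg (Finset.filter_subset _ _)
            fun _ _ _ => Finset.sum_nonneg fun _ _ => by positivity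
      _ = 4 * V ^ 2 := by
          have e2 : V ^ 2 = ∑ q ∈ (Nat.primesBelow (P + 1) ×ˢ Nat.primesBelow (P + 1)),
              (∑ k ∈ Finset.Icc 1 K, ‖c q.1 k‖ ^ 2) * ∑ k ∈ Finset.Icc 1 K, ‖c q.2 k‖ ^ 2 := by
            rw [hV, VF, sq, Finset.sum_mul_sum, Finset.sum_product]
          rw [e2, Finset.mul_sum]
          refine Finset.sum_congr rfl fun q _ => ?_
          rw [Finset.sum_mul_sum, Finset.sum_product, Finset.mul_sum]
          refine Finset.sum_congr rfl fun j _ => ?_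
          rw [Finset.mul_sum]
  -- for each t
  have ht : ∀ t : ℝ, ∑ x ∈ pairs N Q, (FF c P K x t).re ^ 4 ≤
      (2 * (Cn * C₀ ^ 2) + 8) * (1 + V) ^ 2 * Q ^ 2 := by
    intro t
    have h1 := hQ1 Q ((le_max_left _ _).trans hQ)
      (fun i => mm4b c K i.1.1 i.1.2 * mm4e (i.1.2 * Real.log i.1.1) t) (by
        intro i
        rw [norm_mul, mm4_e_norm, mul_one, mm4b, hb1]
        refine (norm_sum_le _ _).trans (le_of_eq ?_)
        exact Finset.sum_congr rfl fun q _ => norm_mul _ _)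
    have h2 := hQ2 Q ((le_max_right _ _).trans hQ)
      (fun i => 2 * (c i.1.1.1 i.1.2.1 * c i.1.1.2 i.1.2.2) *
        mm4e (i.1.2.1 * Real.log i.1.1.1 + i.1.2.2 * Real.log i.1.1.2) t) (by
        intro i
        rw [norm_mul, mm4_e_norm, mul_one, norm_mul, norm_mul, hb2]
        simp)
    have h3 : ∀ x : Ix, (FF c P K x t).re ^ 4 ≤
        2 * ‖∑' i : ↥(mm4I P K), mm4b c K i.1.1 i.1.2 * mm4e (i.1.2 * Real.log i.1.1) t *
          ev x (i.1.1 ^ i.1.2) * starRingEnd ℂ (ev x 1)‖ ^ 2 +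
        2 * ‖∑' i : ↥(mm4J P K), 2 * (c i.1.1.1 i.1.2.1 * c i.1.1.2 i.1.2.2) *
          mm4e (i.1.2.1 * Real.log i.1.1.1 + i.1.2.2 * Real.log i.1.1.2) t *
          ev x (i.1.1.1 ^ i.1.2.1 * i.1.1.2 ^ i.1.2.2) * starRingEnd ℂ (ev x 1)‖ ^ 2 := by
      intro x
      rw [tsum_fintype, tsum_fintype]
      simp only [mm4_ev_one, map_one, mul_one]
      have e1 := mm4_FF_sq c P K x t
      rw [← Finset.sum_coe_sort (mm4I P K), ← Finset.sum_coe_sort (mm4J P K)] at e1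
      set A := ∑ i : ↥(mm4I P K), mm4b c K i.1.1 i.1.2 * mm4e (i.1.2 * Real.log i.1.1) t *
          ev x (i.1.1 ^ i.1.2)
      set B := ∑ i : ↥(mm4J P K), 2 * (c i.1.1.1 i.1.2.1 * c i.1.1.2 i.1.2.2) *
          mm4e (i.1.2.1 * Real.log i.1.1.1 + i.1.2.2 * Real.log i.1.1.2) t *
          ev x (i.1.1.1 ^ i.1.2.1 * i.1.1.2 ^ i.1.2.2)
      have e2 := Complex.abs_re_le_norm (FF c P K x t)
      calc (FF c P K x t).re ^ 4 = |(FF c P K x t).re| ^ 4 := by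
            rw [← abs_pow, abs_of_nonneg (by positivity)]
        _ ≤ ‖FF c P K x t‖ ^ 4 := pow_le_pow_left₀ (abs_nonneg _) e2 4
        _ = ‖FF c P K x t ^ 2‖ ^ 2 := by rw [norm_pow]; ring
        _ = ‖A + B‖ ^ 2 := by rw [e1]
        _ ≤ (‖A‖ + ‖B‖) ^ 2 := pow_le_pow_left₀ (norm_nonneg _) (norm_add_le _ _) 2
        _ ≤ 2 * ‖A‖ ^ 2 + 2 * ‖B‖ ^ 2 := by nlinarith [sq_nonneg (‖A‖ - ‖B‖)]
    refine (Finset.sum_le_sum (s := pairs N Q) fun x _ => h3 x).trans ?_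
    rw [Finset.sum_add_distrib, ← Finset.mul_sum, ← Finset.mul_sum]
    have hQ0 : (0 : ℝ) ≤ (Q : ℝ) ^ 2 := by positivity
    have hM : 0 ≤ Cn * C₀ ^ 2 := by positivity
    have h6 := h1.trans (mul_le_mul_of_nonneg_right (show (∑' i, b1 i ^ 2) + 1 ≤
      Cn * C₀ ^ 2 * V + 1 by linarith) hQ0)
    have h7 := h2.trans (mul_le_mul_of_nonneg_right (show (∑' i, b2 i ^ 2) + 1 ≤
      4 * V ^ 2 + 1 by linarith) hQ0)
    refine (add_le_add (mul_le_mul_of_nonneg_left h6 (by norm_num))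
      (mul_le_mul_of_nonneg_left h7 (by norm_num))).trans ?_
    calc 2 * ((Cn * C₀ ^ 2 * V + 1) * (Q : ℝ) ^ 2) + 2 * ((4 * V ^ 2 + 1) * (Q : ℝ) ^ 2)
        = (2 * (Cn * C₀ ^ 2) * V + 2 + 8 * V ^ 2 + 2) * Q ^ 2 := by ring
      _ ≤ (2 * (Cn * C₀ ^ 2) + 8) * (1 + V) ^ 2 * Q ^ 2 := by
          refine mul_le_mul_of_nonneg_right ?_ hQ0
          nlinarith [mul_nonneg hM hV0, mul_nonneg hM (mul_nonneg hV0 hV0), mul_nonneg hV0 hV0]
  have hint : ∀ x, Integrable (fun t : ℝ => w t * (FF c P K x t).re ^ 4) := by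
    intro x
    have hcont : Continuous fun t => (FF c P K x t).re :=
      Complex.continuous_re.comp (mm4_FF_cont c P K x)
    exact (hw.mul (hcont.pow 4)).integrable_of_hasCompactSupport (hc.mul_right)
  rw [← integral_finsetSum _ (fun x _ => hint x)]
  have h5 : ∫ t : ℝ, ∑ x ∈ pairs N Q, w t * (FF c P K x t).re ^ 4 ≤
      ∫ t : ℝ, w t * ((2 * (Cn * C₀ ^ 2) + 8) * (1 + V) ^ 2 * Q ^ 2) := by
    apply integral_mono (integrable_finsetSum _ (fun x _ => hint x))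
      ((hw.integrable_of_hasCompactSupport hc).mul_const _)
    intro t
    simp only
    rw [← Finset.mul_sum]
    exact mul_le_mul_of_nonneg_left (ht t) (h0 t)
  refine h5.trans (le_of_eq ?_)
  rw [integral_mul_const]
  ring

end Pool.Agent.G5
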